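import Pool.Agent.K4H83.IWChar.Main

/-!
# Primes which split completely: elementary tools
-/

set_option autoImplicit false

namespace Pool.Agent.K4H52.IWSplit

open Subgroup Module IntermediateField Pool.Agent.Q60.MU Pool.Agent.K4H24.IW Pool.Agent.K4H43.IW
open Pool.Agent.K4H83.IWChar
open Polynomial hiding C
open scoped Pointwise

/-- the maximal ideal is prime -/
theorem prime_nonunits {A : ValuationSubring Qb} {x y : Qb} (h : x * y ∈ A.nonunits) :
    x ∈ A.nonunits ∨ y ∈ A.nonunits := by
  rw [ValuationSubring.mem_nonunits_iff] at h ⊢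
  rw [ValuationSubring.mem_nonunits_iff]
  by_contra hn
  push Not at hn
  rw [map_mul] at h
  exact absurd h (not_lt.2 (one_le_mul hn.1 hn.2))

theorem prod_nonunits {A : ValuationSubring Qb} (s : Multiset Qb) (h : s.prod ∈ A.nonunits) :
    ∃ x ∈ s, x ∈ A.nonunits := by
  induction s using Multiset.induction_on with
  | empty =>
    exfalso
    rw [Multiset.prod_zero, ValuationSubring.mem_nonunits_iff, map_one] at h
    exact lt_irrefl _ h
  | cons a s ih =>
    rw [Multiset.prod_cons] at h
    rcases prime_nonunits h with h1 | h1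
    · exact ⟨a, Multiset.mem_cons_self a s, h1⟩
    · obtain ⟨x, hx, hxA⟩ := ih h1
      exact ⟨x, Multiset.mem_cons_of_mem hx, hxA⟩

theorem pow_nonunits {A : ValuationSubring Qb} {x : Qb} (k : ℕ) (h : x ^ k ∈ A.nonunits) :
    x ∈ A.nonunits := by
  obtain ⟨y, hy, hyA⟩ := prod_nonunits (A := A) (Multiset.replicate k x) (by
    rwa [Multiset.prod_replicate])
  rw [Multiset.eq_of_mem_replicate hy] at hyA
  exact hyA

theorem mem_of_nonunits {A : ValuationSubring Qb} {x : Qb} (h : x ∈ A.nonunits) : x ∈ A :=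
  ValuationSubring.nonunits_subset h

/-- values of integer polynomials at congruent elements are congruent -/
theorem aeval_congr (A : ValuationSubring Qb) (P : ℤ[X]) {x y : Qb} (hx : x ∈ A) (hy : y ∈ A)
    (h : x - y ∈ A.nonunits) : aeval x P - aeval y P ∈ A.nonunits := by
  have hcoe : ∀ (q : ℤ[X]) (x : A), (((q.map (Int.castRingHom A)).eval x : A) : Qb) =
      aeval (x : Qb) q := by
    intro q x
    rw [eval_map, aeval_def]
    show A.subtype (eval₂ _ x q) = _
    rw [hom_eval₂]
    congr 1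
  obtain ⟨k, hk⟩ := sub_dvd_eval_sub (⟨x, hx⟩ : A) ⟨y, hy⟩ (P.map (Int.castRingHom A))
  have h1 := congrArg (fun z : A => (z : Qb)) hk
  have h2 : aeval x P - aeval y P = (x - y) * (k : Qb) := by
    have h3 := hcoe P ⟨x, hx⟩
    have h4 := hcoe P ⟨y, hy⟩
    rw [← h3, ← h4]
    exact h1
  rw [h2]
  exact mul_nonunits h k.2

/-- an integer prime to the residue characteristic is a unit -/
theorem int_unit {A : ValuationSubring Qb} {q : ℕ} (hq : q.Prime) (hA : (q : Qb) ∈ A.nonunits)
    {c : ℤ} (hc : ¬ (q : ℤ) ∣ c) : (c : Qb) ∉ A.nonunits := by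
  intro h
  have h1 : IsCoprime (q : ℤ) c := (Prime.coprime_iff_not_dvd (Nat.prime_iff_prime_int.1 hq)).2 hc
  obtain ⟨u, v, huv⟩ := h1
  have h7 : (1 : Qb) ∈ A.nonunits := by
    have h8 : (1 : Qb) = (q : Qb) * (u : Qb) + (c : Qb) * (v : Qb) := by
      have h9 := congrArg (Int.cast : ℤ → Qb) huv
      push_cast at h9
      linear_combination -h9
    rw [h8]
    exact add_mem (mul_nonunits hA (intCast_mem A u)) (mul_nonunits h (intCast_mem A v))
  rw [ValuationSubring.mem_nonunits_iff, map_one] at h7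
  exact lt_irrefl _ h7

theorem not_dvd_of_lt {q : ℕ} {c : ℤ} (hc0 : c ≠ 0) (h : c.natAbs < q) : ¬ (q : ℤ) ∣ c := by
  intro hd
  have h1 : q ∣ c.natAbs := Int.natCast_dvd.1 hd
  have h2 := Nat.le_of_dvd (Int.natAbs_pos.2 hc0) h1
  omega

/-- there is a valuation ring above each prime -/
theorem exists_above {q : ℕ} (hq : q.Prime) : ∃ A : ValuationSubring Qb, (q : Qb) ∈ A.nonunits := by
  set R : Subring Qb := (Int.castRingHom Qb).range with hR
  set x : R := ⟨(q : Qb), ⟨(q : ℤ), by simp⟩⟩ with hx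
  have hI : Ideal.span {x} ≠ ⊤ := by
    intro h
    rw [Ideal.span_singleton_eq_top] at h
    obtain ⟨y, hy⟩ := isUnit_iff_exists_inv.1 h
    obtain ⟨z, hz⟩ := y.2
    have h1 := congrArg (fun w : R => (w : Qb)) hy
    have h2 : (q : Qb) * (z : Qb) = 1 := by
      have h3 : (z : Qb) = (y : Qb) := by
        rw [← hz]
        simp
      rw [h3]
      exact h1
    have h3 : (q : ℤ) * z = 1 := by exact_mod_cast h2
    have h4 : (q : ℤ) ∣ 1 := ⟨z, h3.symm⟩
    have h5 : q ∣ 1 := by exact_mod_cast h4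
    exact hq.one_lt.ne' (Nat.dvd_one.1 h5)
  obtain ⟨B, -, hB⟩ := Ideal.image_subset_nonunits_valuationSubring (Ideal.span {x}) hI
  exact ⟨B, hB ⟨x, Ideal.mem_span_singleton_self x, rfl⟩⟩

/-- **Schur**: a nonconstant integer polynomial has infinitely many prime divisors -/
theorem schur (P : ℤ[X]) (hP : 0 < P.natDegree) (B : ℕ) :
    ∃ q : ℕ, q.Prime ∧ B < q ∧ ∃ m : ℤ, (q : ℤ) ∣ P.eval m := by
  -- finitely many solutions of `P = c`
  have hfin : ∀ c : ℤ, {m : ℤ | P.eval m = c}.Finite := by
    intro c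
    have hne : P - Polynomial.C c ≠ 0 := by
      intro h
      have h1 : P = Polynomial.C c := sub_eq_zero.1 h
      rw [h1, natDegree_C] at hP
      exact lt_irrefl _ hP
    refine ((P - Polynomial.C c).roots.toFinset.finite_toSet).subset fun m hm => ?_
    rw [Finset.mem_coe, Multiset.mem_toFinset, mem_roots hne, IsRoot.def, eval_sub, eval_C]
    exact sub_eq_zero.2 hm
  by_cases h0 : P.eval 0 = 0
  · obtain ⟨q, hq, hqp⟩ := Nat.exists_infinite_primes (B + 1)
    exact ⟨q, hqp, by omega, 0, by rw [h0]; exact dvd_zero _⟩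
  · set c : ℤ := P.eval 0 with hc
    set M : ℤ := c * (B.factorial : ℤ) with hM
    have hM0 : M ≠ 0 := mul_ne_zero h0 (by exact_mod_cast B.factorial_ne_zero)
    -- choose `t` with `P (M t)` different from `c` and `- c`
    obtain ⟨t, ht⟩ : ∃ t : ℤ, M * t ∉ {m : ℤ | P.eval m = c} ∪ {m : ℤ | P.eval m = -c} := by
      by_contra hcon
      push Not at hcon
      have hinj : Function.Injective (fun t : ℤ => M * t) := fun a b h =>
        mul_left_cancel₀ hM0 h
      exact (Set.infinite_range_of_injective hinj) (((hfin c).union (hfin (-c))).subset (by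
        rintro _ ⟨t, rfl⟩
        exact hcon t))
    rw [Set.mem_union, not_or] at ht
    have h1 : M * t - 0 ∣ P.eval (M * t) - P.eval 0 := sub_dvd_eval_sub _ _ _
    rw [sub_zero] at h1
    obtain ⟨k, hk⟩ := h1
    have h2 : P.eval (M * t) = c * (1 + (B.factorial : ℤ) * (t * k)) := by
      have h3 : P.eval (M * t) = c + M * t * k := by
        rw [← hk, ← hc]; ring
      rw [h3, hM]; ring
    set u : ℤ := 1 + (B.factorial : ℤ) * (t * k) with hu
    have hu1 : u ≠ 1 := by
      intro h
      apply ht.1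
      show P.eval (M * t) = c
      rw [h2, h, mul_one]
    have hu2 : u ≠ -1 := by
      intro h
      apply ht.2
      show P.eval (M * t) = -c
      rw [h2, h]; ring
    have hna : u.natAbs ≠ 1 := by
      intro h
      rcases Int.natAbs_eq u with h3 | h3 <;> rw [h] at h3
      · exact hu1 (by rw [h3]; rfl)
      · exact hu2 (by rw [h3]; rfl)
    have hq := Nat.minFac_prime hna
    have hqu : ((u.natAbs.minFac : ℕ) : ℤ) ∣ u := Int.natCast_dvd.2 (Nat.minFac_dvd _)
    refine ⟨u.natAbs.minFac, hq, ?_, M * t, ?_⟩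
    · by_contra hle
      rw [not_lt] at hle
      have h3 : u.natAbs.minFac ∣ B.factorial := Nat.dvd_factorial hq.pos hle
      have h4 : ((u.natAbs.minFac : ℕ) : ℤ) ∣ (B.factorial : ℤ) * (t * k) :=
        Dvd.dvd.mul_right (by exact_mod_cast h3) _
      have h5 : ((u.natAbs.minFac : ℕ) : ℤ) ∣ 1 := by
        have h6 := dvd_sub hqu h4
        rwa [hu, add_sub_cancel_right] at h6
      have h6 : u.natAbs.minFac ∣ 1 := by exact_mod_cast h5
      exact hq.one_lt.ne' (Nat.dvd_one.1 h6)
    · rw [h2]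
      exact Dvd.dvd.mul_left hqu _

end Pool.Agent.K4H52.IWSplit
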