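import Pool.Agent.K4H52.IWSplit.Main

/-!
# An auxiliary cyclic extension whose ramified primes split completely in a given field

The proof is a variant of the proof of `Pool.Agent.K4H83.IWChar.s_char`.
-/

set_option autoImplicit false

namespace Pool.Agent.K4H52.IWSplit

open Subgroup Module IntermediateField Pool.Agent.Q60.MU Pool.Agent.K4H24.IW Pool.Agent.K4H43.IW
open Pool.Agent.K4H83.IWChar
open scoped Pointwise

/-- **The auxiliary character.** -/
theorem s_char2 : S_CHAR2 := by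
  classical
  intro ℓ hℓ S hS K hKo hKn hKf
  have hℓF : Fact ℓ.Prime := ⟨hℓ⟩
  -- the primes
  let P : Set ℕ := {q | q.Prime ∧ q ≡ 1 [MOD 2 * ℓ] ∧
    (∀ A : ValuationSubring Qb, (q : Qb) ∈ A.nonunits → ∀ σ : Gal(Qb/ℚ), σ • A = A → σ ∈ K) ∧
    ∀ s ∈ S, s < q}
  have hPinf : P.Infinite := by
    rw [Set.infinite_iff_exists_gt]
    intro N
    obtain ⟨q, hq, hlt, hmod, hsplit⟩ := s_split K hKo hKn hKf (2 * ℓ)
      (mul_ne_zero two_ne_zero hℓ.ne_zero) (N + ∑ s ∈ S, s)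
    refine ⟨q, ⟨hq, hmod, hsplit, fun s hs => ?_⟩, by omega⟩
    have h1 : s ≤ ∑ s ∈ S, s := Finset.single_le_sum (f := fun s => s) (fun _ _ => Nat.zero_le _) hs
    omega
  have hPi : Infinite P := hPinf.to_subtype
  have hψ : ∀ q : P, ∃ ψ : (ZMod q.1)ˣ →* Multiplicative (ZMod ℓ), ψ (-1) = 1 ∧ ∃ u, ψ u ≠ 1 :=
    fun q => exists_psi hℓ q.2.1 q.2.2.1
  choose ψ hψ1 hψ2 using hψ
  choose u hu using hψ2
  have hκ := fun q : P => exists_kappa q.1 q.2.1.ne_zero
  choose κ hκ using hκ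
  -- coprimality
  have hSq : ∀ q : P, ∀ s ∈ S, s.Coprime q.1 := fun q s hs =>
    (Nat.coprime_primes (hS s hs) q.2.1).2 (q.2.2.2.2 s hs).ne
  -- the values at `S`
  let v : P → (S → Multiplicative (ZMod ℓ)) := fun q s => ψ q (ZMod.unitOfCoprime s.1 (hSq q s.1 s.2))
  have hfinM : Finite (Multiplicative (ZMod ℓ)) := inferInstanceAs (Finite (ZMod ℓ))
  obtain ⟨y, hy⟩ := Finite.exists_infinite_fiber v
  obtain ⟨q0, hq0⟩ := (inferInstance : Nonempty (v ⁻¹' {y}))
  -- the character attached to two primes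
  let χ : P → (Gal(Qb/ℚ) →* Multiplicative (ZMod ℓ)) := fun q => (ψ q).comp (κ q)
  have hχ : ∀ q σ, χ q σ = ψ q (κ q σ) := fun q σ => rfl
  -- two different primes have different characters
  have hpair : ∀ q q' : P, q ≠ q' → ∀ a : ℕ, a.Coprime q.1 →
      ∃ σ : Gal(Qb/ℚ), (κ q σ : ZMod q.1) = a ∧ κ q' σ = 1 := by
    intro q q' hne a ha
    have hcop : q.1.Coprime q'.1 := (Nat.coprime_primes q.2.1 q'.2.1).2 fun h => hne (Subtype.ext h)
    have hcl : IsAlgClosed Qb := AlgebraicClosure.isAlgClosed ℚ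
    have hn : q.1 * q'.1 ≠ 0 := mul_ne_zero q.2.1.ne_zero q'.2.1.ne_zero
    have : NeZero (q.1 * q'.1) := ⟨hn⟩
    have : NeZero ((q.1 * q'.1 : ℕ) : Qb) := ⟨by exact_mod_cast hn⟩
    obtain ⟨ζ, hζ⟩ := HasEnoughRootsOfUnity.exists_primitiveRoot Qb (q.1 * q'.1)
    obtain ⟨e, he1, he2⟩ := Nat.chineseRemainder hcop a 1
    have hecop : e.Coprime (q.1 * q'.1) := by
      refine Nat.Coprime.mul_right ?_ ?_
      · exact (he1.gcd_eq).trans ha
      · exact (he2.gcd_eq).trans (Nat.gcd_one_left _)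
    obtain ⟨σ, hσ⟩ := exists_sigma hn hζ hecop
    refine ⟨σ, ?_, ?_⟩
    · have hζ1 : IsPrimitiveRoot (ζ ^ q'.1) q.1 := hζ.pow (Nat.pos_of_ne_zero hn) (mul_comm _ _)
      have h1 : σ (ζ ^ q'.1) = (ζ ^ q'.1) ^ e := by
        rw [map_pow, hσ, ← pow_mul, ← pow_mul, mul_comm]
      rw [kappa_eq q.2.1.ne_zero (hκ q) hζ1 h1]
      exact (ZMod.natCast_eq_natCast_iff _ _ _).2 he1
    · have hζ1 : IsPrimitiveRoot (ζ ^ q.1) q'.1 := hζ.pow (Nat.pos_of_ne_zero hn) rfl
      have h1 : σ (ζ ^ q.1) = (ζ ^ q.1) ^ e := by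
        rw [map_pow, hσ, ← pow_mul, ← pow_mul, mul_comm]
      apply Units.ext
      rw [kappa_eq q'.2.1.ne_zero (hκ q') hζ1 h1, (ZMod.natCast_eq_natCast_iff _ _ _).2 he2]
      simp
  have hinj : Function.Injective χ := by
    intro q q' h
    by_contra hne
    obtain ⟨σ, h1, h2⟩ := hpair q q' hne (u q : ZMod q.1).val (by
      have : NeZero q.1 := ⟨q.2.1.ne_zero⟩
      exact ZMod.val_coe_unit_coprime (u q))
    have h3 : κ q σ = u q := by
      apply Units.ext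
      have : NeZero q.1 := ⟨q.2.1.ne_zero⟩
      rw [h1, ZMod.natCast_zmod_val]
    have h4 := DFunLike.congr_fun h σ
    rw [hχ, hχ, h2, h3, map_one] at h4
    exact hu q h4
  -- one of the quotients is nontrivial on `K`
  have hex : ∃ q ∈ v ⁻¹' {y}, ∃ k ∈ K, (χ q0 / χ q) k ≠ 1 := by
    by_contra hcon
    push Not at hcon
    have hfin : Finite (Gal(Qb/ℚ) ⧸ K) := by
      have : K.FiniteIndex := ⟨hKf⟩
      infer_instance
    let F : (v ⁻¹' {y} : Set P) → (Gal(Qb/ℚ) ⧸ K → Multiplicative (ZMod ℓ)) := fun q =>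
      fun z => (χ q0 / χ q.1) z.out
    have hF : Function.Injective F := by
      intro q q' h
      apply Subtype.ext
      apply hinj
      have h5 : χ q0 / χ q.1 = χ q0 / χ q'.1 := by
        ext σ
        have h6 : ∀ q : (v ⁻¹' {y} : Set P),
            (χ q0 / χ q.1) σ = (χ q0 / χ q.1) (QuotientGroup.mk σ : Gal(Qb/ℚ) ⧸ K).out := by
          intro q
          obtain ⟨k, hk⟩ := QuotientGroup.mk_out_eq_mul K σ
          rw [hk, map_mul, hcon q.1 q.2 k.1 k.2, mul_one]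
        rw [h6 q, h6 q']
        exact congrArg _ (congrFun h (QuotientGroup.mk σ))
      exact div_right_injective h5
    exact (Finite.of_injective F hF).not_infinite hy
  obtain ⟨q1, hq1, k, hk, hχk⟩ := hex
  have hne : q0 ≠ q1 := by
    rintro rfl
    apply hχk
    rw [div_self']
    rfl
  have hn : q0.1 * q1.1 ≠ 0 := mul_ne_zero q0.2.1.ne_zero q1.2.1.ne_zero
  have hcop : q0.1.Coprime q1.1 := (Nat.coprime_primes q0.2.1 q1.2.1).2 fun h => hne (Subtype.ext h)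
  have hcl : IsAlgClosed Qb := AlgebraicClosure.isAlgClosed ℚ
  refine ⟨χ q0 / χ q1, ?_, ⟨k, hk, hχk⟩, ?_, ?_, ?_⟩
  · -- open kernel
    have hprim : ∀ q : P, ∃ ζ : Qb, IsPrimitiveRoot ζ q.1 := by
      intro q
      have : NeZero q.1 := ⟨q.2.1.ne_zero⟩
      have : NeZero ((q.1 : ℕ) : Qb) := ⟨by exact_mod_cast q.2.1.ne_zero⟩
      exact HasEnoughRootsOfUnity.exists_primitiveRoot Qb q.1
    choose ζ hζ using hprim
    have hint : ∀ x ∈ ({ζ q0, ζ q1} : Set Qb), IsIntegral ℚ x := by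
      intro x hx
      exact (isAlg_Qb.isAlgebraic x).isIntegral
    have hfdE : FiniteDimensional ℚ (adjoin ℚ ({ζ q0, ζ q1} : Set Qb)) :=
      finiteDimensional_adjoin hint
    refine Subgroup.isOpen_mono (H₁ := (adjoin ℚ ({ζ q0, ζ q1} : Set Qb)).fixingSubgroup) ?_
      (fixingSubgroup_isOpen _)
    intro σ hσ
    have h1 : ∀ q : P, ζ q ∈ adjoin ℚ ({ζ q0, ζ q1} : Set Qb) → κ q σ = 1 := by
      intro q hq
      have h2 : σ (ζ q) = (ζ q) ^ 1 := by
        rw [pow_one]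
        exact (IntermediateField.mem_fixingSubgroup_iff _ _).1 hσ _ hq
      apply Units.ext
      rw [kappa_eq q.2.1.ne_zero (hκ q) (hζ q) h2]
      simp
    rw [MonoidHom.mem_ker, MonoidHom.div_apply, hχ, hχ,
      h1 q0 (subset_adjoin _ _ (Set.mem_insert _ _)),
      h1 q1 (subset_adjoin _ _ (Set.mem_insert_of_mem _ rfl)), map_one, map_one, div_one]
  · -- the decomposition groups above `S`
    rintro A ⟨s, hs, hsA⟩ σ hσ
    have : NeZero (q0.1 * q1.1) := ⟨hn⟩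
    have : NeZero ((q0.1 * q1.1 : ℕ) : Qb) := ⟨by exact_mod_cast hn⟩
    obtain ⟨ζ, hζ⟩ := HasEnoughRootsOfUnity.exists_primitiveRoot Qb (q0.1 * q1.1)
    have hscop : s.Coprime (q0.1 * q1.1) := Nat.Coprime.mul_right (hSq q0 s hs) (hSq q1 s hs)
    obtain ⟨j, hj⟩ := decomp_power A hn (hS s hs) hsA hscop hζ.pow_eq_one hσ
    have h0 : κ q0 σ = (ZMod.unitOfCoprime s (hSq q0 s hs)) ^ j := by
      have hζ1 : IsPrimitiveRoot (ζ ^ q1.1) q0.1 := hζ.pow (Nat.pos_of_ne_zero hn) (mul_comm _ _)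
      have h1 : σ (ζ ^ q1.1) = (ζ ^ q1.1) ^ (s ^ j) := by
        rw [map_pow, hj, ← pow_mul, ← pow_mul, mul_comm]
      apply Units.ext
      rw [kappa_eq q0.2.1.ne_zero (hκ q0) hζ1 h1]
      simp
    have h1 : κ q1 σ = (ZMod.unitOfCoprime s (hSq q1 s hs)) ^ j := by
      have hζ1 : IsPrimitiveRoot (ζ ^ q0.1) q1.1 := hζ.pow (Nat.pos_of_ne_zero hn) rfl
      have h1 : σ (ζ ^ q0.1) = (ζ ^ q0.1) ^ (s ^ j) := by
        rw [map_pow, hj, ← pow_mul, ← pow_mul, mul_comm]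
      apply Units.ext
      rw [kappa_eq q1.2.1.ne_zero (hκ q1) hζ1 h1]
      simp
    have h2 : ψ q0 (ZMod.unitOfCoprime s (hSq q0 s hs)) = ψ q1 (ZMod.unitOfCoprime s (hSq q1 s hs)) := by
      have h3 : v q0 = v q1 := by
        have h4 : v q0 = y := hq0
        have h5 : v q1 = y := hq1
        rw [h4, h5]
      exact congrFun h3 ⟨s, hs⟩
    rw [MonoidHom.div_apply, hχ, hχ, h0, h1, map_pow, map_pow, h2, div_self']
  · -- inertia groups
    intro A
    by_cases hA0 : (q0.1 : Qb) ∈ A.nonunits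
    · exact Or.inr (q0.2.2.2.1 A hA0)
    by_cases hA1 : (q1.1 : Qb) ∈ A.nonunits
    · exact Or.inr (q1.2.2.2.1 A hA1)
    left
    intro σ hσ
    have h1 : ∀ q : P, (q.1 : Qb) ∉ A.nonunits → κ q σ = 1 := by
      intro q hqA
      have : NeZero q.1 := ⟨q.2.1.ne_zero⟩
      have : NeZero ((q.1 : ℕ) : Qb) := ⟨by exact_mod_cast q.2.1.ne_zero⟩
      obtain ⟨ζ, hζ⟩ := HasEnoughRootsOfUnity.exists_primitiveRoot Qb q.1
      have h2 : σ ζ = ζ ^ 1 := by
        rw [pow_one]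
        by_contra h3
        exact hqA (inertia_root A q.2.1 (k := 1)
          (by rw [pow_one]; exact hζ.pow_eq_one) hσ h3)
      apply Units.ext
      rw [kappa_eq q.2.1.ne_zero (hκ q) hζ h2]
      simp
    rw [MonoidHom.mem_ker, MonoidHom.div_apply, hχ, hχ, h1 q0 hA0, h1 q1 hA1, map_one, map_one,
      div_one]
  · -- complex conjugations
    intro e σ hσ
    have h1 : ∀ q : P, χ q σ = 1 := by
      intro q
      have : NeZero q.1 := ⟨q.2.1.ne_zero⟩
      have : NeZero ((q.1 : ℕ) : Qb) := ⟨by exact_mod_cast q.2.1.ne_zero⟩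
      obtain ⟨ζ, hζ⟩ := HasEnoughRootsOfUnity.exists_primitiveRoot Qb q.1
      have h2 : σ ζ = ζ ^ (q.1 - 1) := by
        apply e.injective
        rw [hσ, map_pow]
        have h3 : (e ζ) ^ q.1 = 1 := by rw [← map_pow, hζ.pow_eq_one, map_one]
        have h4 : ‖e ζ‖ = 1 := Complex.norm_eq_one_of_pow_eq_one h3 q.2.1.ne_zero
        have h5 : e ζ ≠ 0 := by
          intro h6
          rw [h6, norm_zero] at h4
          exact zero_ne_one h4
        have h6 : (starRingEnd ℂ) (e ζ) * e ζ = 1 := by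
          rw [mul_comm, Complex.mul_conj, Complex.normSq_eq_norm_sq, h4]
          simp
        have h7 : (e ζ) ^ (q.1 - 1) * e ζ = 1 := by
          rw [← pow_succ, Nat.sub_add_cancel q.2.1.one_le, h3]
        exact mul_right_cancel₀ h5 (h6.trans h7.symm)
      have h3 : κ q σ = -1 := by
        apply Units.ext
        rw [kappa_eq q.2.1.ne_zero (hκ q) hζ h2]
        rw [Nat.cast_sub q.2.1.one_le]
        simp
      rw [hχ, h3, hψ1]
    rw [MonoidHom.div_apply, h1, h1, div_one]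

end Pool.Agent.K4H52.IWSplit
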