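import Pool.Agent.K4H43.IW.Stm2
import Pool.Agent.K4H24.IW.Dens
import Pool.Agent.K4H52.IWSplit.Basic

/-!
# Infinitely many primes `q = 1` modulo `n` split completely in a number field
-/

set_option autoImplicit false

namespace Pool.Agent.K4H52.IWSplit

open Subgroup Module IntermediateField Pool.Agent.Q60.MU Pool.Agent.K4H24.IW Pool.Agent.K4H43.IW
open Pool.Agent.K4H83.IWChar
open Polynomial hiding C
open scoped Pointwise

/-- an integral primitive element, and the primes which divide its discriminant -/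
theorem field_data (N : IntermediateField ℚ Qb) [FiniteDimensional ℚ N] :
    ∃ β : Qb, IsIntegral ℤ β ∧ (∀ σ : Gal(Qb/ℚ), σ β = β → σ ∈ N.fixingSubgroup) ∧
      (∀ x ∈ N, ∃ (D : ℤ) (g : ℤ[X]), D ≠ 0 ∧ (D : Qb) * x = aeval β g) ∧
      ∃ c : ℤ, c ≠ 0 ∧ ∀ (A : ValuationSubring Qb) (σ : Gal(Qb/ℚ)), σ β - β ∈ A.nonunits →
        σ β ≠ β → (c : Qb) ∈ A.nonunits := by
  have halg : ∀ x : Qb, IsAlgebraic ℤ x := fun x =>
    (IsFractionRing.isAlgebraic_iff ℤ ℚ Qb).2 ((AlgebraicClosure.isAlgebraic ℚ).isAlgebraic x)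
  obtain ⟨α, hα⟩ := Field.exists_primitive_element ℚ N
  obtain ⟨y, hy0, hyi⟩ := (halg (α : Qb)).exists_integral_multiple
  set β : Qb := y • (α : Qb) with hβ
  have hσ : ∀ σ : Gal(Qb/ℚ), σ β = β → σ ∈ N.fixingSubgroup := by
    intro σ h
    have h1 : σ (α : Qb) = α := by
      rw [hβ, map_zsmul] at h
      exact smul_right_injective _ hy0 h
    rw [IntermediateField.mem_fixingSubgroup_iff]
    intro x hx
    have h2 : (⟨x, hx⟩ : N) ∈ IntermediateField.adjoin ℚ {α} := by
      rw [hα]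
      exact IntermediateField.mem_top
    obtain ⟨r, s, hrs⟩ := (IntermediateField.mem_adjoin_simple_iff ℚ _).1 h2
    have h3 : x = aeval (α : Qb) r / aeval (α : Qb) s := by
      have h4 := congrArg N.val hrs
      rw [map_div₀, ← aeval_algHom_apply, ← aeval_algHom_apply] at h4
      exact h4
    have h4 : ∀ q : ℚ[X], σ (aeval (α : Qb) q) = aeval (α : Qb) q := by
      intro q
      have h5 := aeval_algHom_apply (σ : Qb →ₐ[ℚ] Qb) (α : Qb) q
      have h6 : (σ : Qb →ₐ[ℚ] Qb) (α : Qb) = α := h1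
      rw [h6] at h5
      exact h5.symm
    rw [h3, map_div₀, h4, h4]
  refine ⟨β, hyi, hσ, ?_, ?_⟩
  · intro x hx
    -- `x` is a polynomial in `β`
    have hβalg : IsAlgebraic ℚ β := (AlgebraicClosure.isAlgebraic ℚ).isAlgebraic β
    have hle : N ≤ IntermediateField.adjoin ℚ {β} := by
      have h1 : (IntermediateField.adjoin ℚ {β}).fixingSubgroup ≤ N.fixingSubgroup := by
        intro σ hs
        apply hσ
        exact (IntermediateField.mem_fixingSubgroup_iff _ _).1 hs β
          (IntermediateField.mem_adjoin_simple_self ℚ β)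
      have h2 := IntermediateField.fixedField_antitone h1
      rw [InfiniteGalois.fixedField_fixingSubgroup, InfiniteGalois.fixedField_fixingSubgroup] at h2
      exact h2
    have h3 : x ∈ (IntermediateField.adjoin ℚ {β}).toSubalgebra := hle hx
    rw [IntermediateField.adjoin_simple_toSubalgebra_of_isAlgebraic hβalg,
      Algebra.adjoin_singleton_eq_range_aeval] at h3
    obtain ⟨r, hr⟩ := h3
    obtain ⟨b, hb⟩ := IsLocalization.integerNormalization_map_to_map (nonZeroDivisors ℤ) r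
    refine ⟨(b : ℤ), IsLocalization.integerNormalization (nonZeroDivisors ℤ) r,
      nonZeroDivisors.coe_ne_zero b, ?_⟩
    have h4 : aeval β (IsLocalization.integerNormalization (nonZeroDivisors ℤ) r) =
        aeval β ((IsLocalization.integerNormalization (nonZeroDivisors ℤ) r).map
          (algebraMap ℤ ℚ)) := by
      rw [aeval_map_algebraMap]
    rw [h4, hb, map_zsmul, zsmul_eq_mul]
    congr 1
    exact hr.symm
  · set P := minpoly ℤ β with hPdef
    have hP : P.map (algebraMap ℤ ℚ) = minpoly ℚ β :=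
      (minpoly.isIntegrallyClosed_eq_field_fractions' ℚ hyi).symm
    set D : Qb := aeval β (derivative P) with hD
    have hD0 : D ≠ 0 := by
      have h1 : D = aeval β (derivative (minpoly ℚ β)) := by
        rw [← hP, derivative_map, aeval_map_algebraMap]
      rw [h1]
      have h2 : IsIntegral ℚ β := hyi.tower_top
      exact (minpoly.irreducible h2).separable.aeval_derivative_ne_zero (minpoly.aeval _ _)
    obtain ⟨c, hc0, hci⟩ := (halg D⁻¹).exists_integral_multiple
    refine ⟨c, hc0, fun A σ hh hne => ?_⟩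
    have hβA : β ∈ A := integral_mem A hyi
    have hh0 : σ β - β ≠ 0 := sub_ne_zero.2 hne
    have hhA : σ β - β ∈ A := ValuationSubring.nonunits_subset hh
    have hcoe : ∀ (q : ℤ[X]) (x : A), (((q.map (Int.castRingHom A)).eval x : A) : Qb) =
        aeval (x : Qb) q := by
      intro q x
      rw [eval_map, aeval_def]
      show A.subtype (eval₂ _ x q) = _
      rw [hom_eval₂]
      congr 1
    have hDA : D ∈ A.nonunits := by
      obtain ⟨k, hk⟩ := binomExpansion (P.map (Int.castRingHom A)) ⟨β, hβA⟩ ⟨σ β - β, hhA⟩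
      have h1 : (P.map (Int.castRingHom A)).eval (⟨β, hβA⟩ : A) = 0 := by
        apply Subtype.ext
        rw [hcoe]
        exact minpoly.aeval ℤ β
      have h2 : (P.map (Int.castRingHom A)).eval ((⟨β, hβA⟩ : A) + ⟨σ β - β, hhA⟩) = 0 := by
        apply Subtype.ext
        rw [hcoe]
        show aeval (β + (σ β - β)) P = 0
        rw [add_sub_cancel]
        have h3 := aeval_algHom_apply ((σ : Qb →ₐ[ℚ] Qb).restrictScalars ℤ) β P
        have h4 : aeval β P = 0 := minpoly.aeval ℤ β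
        rw [h4, map_zero] at h3
        exact h3
      rw [h1, h2, zero_add] at hk
      have h3 := congrArg (fun z : A => (z : Qb)) hk
      have h4 : (0 : Qb) = D * (σ β - β) + k * (σ β - β) ^ 2 := by
        have h5 : (((derivative (P.map (Int.castRingHom A))).eval (⟨β, hβA⟩ : A) : A) : Qb) = D := by
          rw [derivative_map, hcoe]
        rw [← h5]
        exact h3
      have h5 : D = (σ β - β) * (-(k : Qb)) := by
        have h6 : (σ β - β) * (D + k * (σ β - β)) = 0 := by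
          rw [h4]
          ring
        have h7 := (mul_eq_zero.1 h6).resolve_left hh0
        linear_combination h7
      rw [h5]
      exact mul_nonunits hh (neg_mem k.2)
    have h1 : (c : Qb) = D * (c • D⁻¹) := by
      rw [zsmul_eq_mul]
      field_simp
    rw [h1]
    exact mul_nonunits hDA (integral_mem A hci)

theorem smul_nonunits {A : ValuationSubring Qb} (g : Gal(Qb/ℚ)) {z : Qb} (h4 : z ∈ A.nonunits) :
    g z ∈ (g • A).nonunits := by
  rw [ValuationSubring.mem_nonunits_iff_or] at h4 ⊢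
  rcases h4 with h | h
  · left
    rw [h, map_zero]
  · right
    intro h7
    apply h
    have h8 : (g z)⁻¹ = g • z⁻¹ := by
      show (g z)⁻¹ = g z⁻¹
      rw [map_inv₀]
    rw [h8] at h7
    exact ValuationSubring.smul_mem_pointwise_smul_iff.1 h7

theorem smul_nonunits_nat {A : ValuationSubring Qb} (g : Gal(Qb/ℚ)) {q : ℕ}
    (h : (q : Qb) ∈ A.nonunits) : (q : Qb) ∈ (g • A).nonunits := by
  have h1 := smul_nonunits g h
  rwa [map_natCast] at h1

/-- **Complete splitting.** -/
theorem s_split : S_SPLIT := by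
  classical
  intro K hKo hKn hKf n hn B
  obtain ⟨κ, hκ⟩ := exists_kappa n hn
  have hcl : IsAlgClosed Qb := AlgebraicClosure.isAlgClosed ℚ
  have hn' : NeZero (n : Qb) := ⟨by exact_mod_cast hn⟩
  obtain ⟨ζ, hζ⟩ := HasEnoughRootsOfUnity.exists_primitiveRoot Qb n
  -- the subgroup `K'`
  have hker : IsOpen (κ.ker : Set Gal(Qb/ℚ)) := by
    have hfd : FiniteDimensional ℚ (IntermediateField.adjoin ℚ {ζ}) :=
      IntermediateField.adjoin.finiteDimensional
        (IsIntegral.tower_top (integral_of_pow_eq_one hn hζ.pow_eq_one))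
    refine Subgroup.isOpen_mono (H₁ := (IntermediateField.adjoin ℚ {ζ}).fixingSubgroup) ?_
      (IntermediateField.fixingSubgroup_isOpen _)
    intro σ hσ
    have h1 : σ ζ = ζ ^ 1 := by
      rw [pow_one]
      exact (IntermediateField.mem_fixingSubgroup_iff _ _).1 hσ ζ
        (IntermediateField.mem_adjoin_simple_self ℚ ζ)
    have h2 := kappa_eq hn hκ hζ h1
    rw [MonoidHom.mem_ker]
    apply Units.ext
    rw [h2]
    simp
  set K' : Subgroup Gal(Qb/ℚ) := K ⊓ κ.ker with hK'
  have hK'o : IsOpen (K' : Set Gal(Qb/ℚ)) := by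
    rw [hK', Subgroup.coe_inf]
    exact hKo.inter hker
  have hK'n : K'.Normal := Subgroup.normal_inf_normal _ _
  have hnz : NeZero n := ⟨hn⟩
  have hkf : κ.ker.index ≠ 0 := by
    rw [Subgroup.index_ker]
    exact Nat.card_pos.ne'
  have hK'f : K'.index ≠ 0 := Subgroup.index_inf_ne_zero hKf hkf
  have hfd := finite_fixed hK'o hK'f
  have hfix := fix_fixed hK'o
  obtain ⟨β, hβi, hβσ, hβpoly, c, hc0, hc⟩ := field_data (fixedField K')
  rw [hfix] at hβσ
  have hζN : ζ ∈ fixedField K' := by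
    rw [mem_fixedField_iff]
    intro σ hσ
    have h1 := hκ σ ζ hζ.pow_eq_one
    have h2 := hκ 1 ζ hζ.pow_eq_one
    have h3 : κ σ = 1 := hσ.2
    rw [h1, h3, ← map_one κ, ← h2]
    rfl
  obtain ⟨D, g, hD0, hg⟩ := hβpoly ζ hζN
  set P := minpoly ℤ β with hPdef
  have hPdeg : 0 < P.natDegree := minpoly.natDegree_pos hβi
  obtain ⟨q, hq, hqB, m, hqm⟩ := schur P hPdeg (B + c.natAbs + D.natAbs + n)
  obtain ⟨A₀, hA₀⟩ := exists_above hq
  -- a conjugate of `β` is congruent to `m`
  have hPmon : P.Monic := minpoly.monic hβi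
  obtain ⟨y, hy, hyA⟩ : ∃ y ∈ (P.map (algebraMap ℤ Qb)).roots, (m : Qb) - y ∈ A₀.nonunits := by
    have hsp : (P.map (algebraMap ℤ Qb)).Splits := IsAlgClosed.splits _
    have h1 := hsp.eval_eq_prod_roots_of_monic (hPmon.map _) (m : Qb)
    have h2 : (P.map (algebraMap ℤ Qb)).eval (m : Qb) = ((P.eval m : ℤ) : Qb) := by
      rw [eval_map, ← eq_intCast (algebraMap ℤ Qb) m, eval₂_at_apply, eq_intCast]
    rw [h2] at h1
    obtain ⟨k, hk⟩ := hqm
    have h3 : ((P.eval m : ℤ) : Qb) ∈ A₀.nonunits := by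
      rw [hk]
      push_cast
      exact mul_nonunits hA₀ (intCast_mem A₀ k)
    rw [h1] at h3
    obtain ⟨x, hx, hxA⟩ := prod_nonunits _ h3
    rw [Multiset.mem_map] at hx
    obtain ⟨y, hy, rfl⟩ := hx
    exact ⟨y, hy, hxA⟩
  obtain ⟨σ₀, hσ₀⟩ : ∃ σ₀ : Gal(Qb/ℚ), σ₀ β = y := by
    have hroot : aeval y (minpoly ℚ β) = 0 := by
      have hP : P.map (algebraMap ℤ ℚ) = minpoly ℚ β :=
        (minpoly.isIntegrallyClosed_eq_field_fractions' ℚ hβi).symm
      rw [← hP, aeval_map_algebraMap]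
      have h1 := (mem_roots'.1 hy).2
      rw [IsRoot.def, eval_map] at h1
      exact h1
    exact minpoly.exists_algEquiv_of_root' ((AlgebraicClosure.isAlgebraic ℚ).isAlgebraic β) hroot
  set A₁ : ValuationSubring Qb := σ₀⁻¹ • A₀ with hA₁def
  have hA₁ : (q : Qb) ∈ A₁.nonunits := smul_nonunits_nat _ hA₀
  have hβm : β - (m : Qb) ∈ A₁.nonunits := by
    have h1 := smul_nonunits σ₀⁻¹ hyA
    have h2 : σ₀⁻¹ ((m : Qb) - y) = (m : Qb) - β := by
      rw [map_sub, map_intCast, ← hσ₀, ← AlgEquiv.mul_apply, inv_mul_cancel, AlgEquiv.one_apply]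
    rw [h2] at h1
    have h3 : β - (m : Qb) = -((m : Qb) - β) := by ring
    rw [h3]
    exact neg_mem h1
  have hβA : β ∈ A₁ := integral_mem A₁ hβi
  -- `A₁` splits
  have hsplit₁ : ∀ σ : Gal(Qb/ℚ), σ • A₁ = A₁ → σ ∈ K' := by
    intro σ hσ
    apply hβσ
    by_contra hne
    have h1 : σ β - (m : Qb) ∈ A₁.nonunits := by
      have h2 := smul_nonunits σ hβm
      rwa [map_sub, map_intCast, hσ] at h2
    have h2 : σ β - β ∈ A₁.nonunits := by
      have h3 : σ β - β = (σ β - (m : Qb)) + -(β - (m : Qb)) := by ring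
      rw [h3]
      exact add_mem h1 (neg_mem hβm)
    exact int_unit hq hA₁ (not_dvd_of_lt hc0 (by omega)) (hc A₁ σ h2 hne)
  refine ⟨q, hq, by omega, ?_, ?_⟩
  · -- `ζ ^ q = ζ`
    have hmA : (m : Qb) ∈ A₁ := intCast_mem A₁ m
    have hζA : ζ ∈ A₁ := integral_mem A₁ (integral_of_pow_eq_one hn hζ.pow_eq_one)
    have h1 : (D : Qb) * ζ - ((g.eval m : ℤ) : Qb) ∈ A₁.nonunits := by
      have h2 := aeval_congr A₁ g hβA hmA hβm
      rw [← hg] at h2
      have h3 : aeval (m : Qb) g = ((g.eval m : ℤ) : Qb) := by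
        rw [← eq_intCast (algebraMap ℤ Qb) m, aeval_algebraMap_apply, eq_intCast, coe_aeval_eq_eval]
      rwa [h3] at h2
    set G : ℤ := g.eval m with hG
    have hfermat : ∀ a : ℤ, (a : Qb) ^ q - (a : Qb) ∈ A₁.nonunits := by
      intro a
      have : Fact q.Prime := ⟨hq⟩
      have h2 : (q : ℤ) ∣ a ^ q - a := by
        rw [← ZMod.intCast_zmod_eq_zero_iff_dvd]
        push_cast
        rw [ZMod.pow_card, sub_self]
      obtain ⟨k, hk⟩ := h2
      have h3 : (a : Qb) ^ q - (a : Qb) = (q : Qb) * (k : Qb) := by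
        have h4 := congrArg (Int.cast : ℤ → Qb) hk
        push_cast at h4
        exact h4
      rw [h3]
      exact mul_nonunits hA₁ (intCast_mem A₁ k)
    -- `(D ζ) ^ q` is congruent to `D ζ`
    have hDζA : (D : Qb) * ζ ∈ A₁ := mul_mem (intCast_mem A₁ D) hζA
    have h2 : ((D : Qb) * ζ) ^ q - (G : Qb) ^ q ∈ A₁.nonunits := by
      have h3 := aeval_congr A₁ (X ^ q : ℤ[X]) hDζA (intCast_mem A₁ G) h1
      simpa using h3
    have h3 : (D : Qb) * (ζ ^ q - ζ) ∈ A₁.nonunits := by
      have h4 : (D : Qb) * (ζ ^ q - ζ) = (((D : Qb) * ζ) ^ q - (G : Qb) ^ q) +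
          ((G : Qb) ^ q - (G : Qb)) + -((D : Qb) * ζ - (G : Qb)) +
          -(((D : Qb) ^ q - (D : Qb)) * ζ ^ q) := by
        rw [mul_pow]
        ring
      rw [h4]
      exact add_mem (add_mem (add_mem h2 (hfermat G)) (neg_mem h1))
        (neg_mem (mul_nonunits (hfermat D) (pow_mem hζA q)))
    have h4 : ζ ^ q - ζ ∈ A₁.nonunits :=
      (prime_nonunits h3).resolve_left (int_unit hq hA₁ (not_dvd_of_lt hD0 (by omega)))
    have hcop : q.Coprime n := (Nat.Prime.coprime_iff_not_dvd hq).2 fun h =>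
      absurd (Nat.le_of_dvd (Nat.pos_of_ne_zero hn) h) (not_le.2 (by omega))
    have h5 : ζ ^ q = ζ := eq_of_sub_mem A₁ hn hA₁ hcop
      (by rw [← pow_mul, mul_comm, pow_mul, hζ.pow_eq_one, one_pow]) hζ.pow_eq_one h4
    have h6 : ζ ^ (q - 1) = 1 := by
      have hζ0 : ζ ≠ 0 := hζ.ne_zero hn
      have h7 : ζ ^ (q - 1) * ζ = 1 * ζ := by
        rw [← pow_succ, Nat.sub_add_cancel hq.one_le, h5, one_mul]
      exact mul_right_cancel₀ hζ0 h7
    have h7 : n ∣ q - 1 := (hζ.pow_eq_one_iff_dvd _).1 h6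
    exact ((Nat.modEq_iff_dvd' hq.one_le).2 h7).symm
  · intro A hA σ hσ
    obtain ⟨γ, rfl⟩ := exists_smul_eq hq A A₁ hA hA₁
    have h1 : (γ⁻¹ * σ * γ) • A₁ = A₁ := by
      rw [mul_smul, mul_smul, hσ, inv_smul_smul]
    have h2 := hsplit₁ _ h1
    have h3 : σ ∈ K' := by
      have h4 := hK'n.conj_mem _ h2 γ
      have h5 : γ * (γ⁻¹ * σ * γ) * γ⁻¹ = σ := by group
      rwa [h5] at h4
    exact h3.1

end Pool.Agent.K4H52.IWSplit
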